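import Pool.Agent.Y110.FJ.Stm4
import Pool.Agent.Y261.FJ.GPI

/-!
# Project FJ, job FJ-SIG: automorphisms of graph products of subgroups
-/

set_option autoImplicit false

namespace Pool.Agent.Y86.FJ

open Pool.Agent.Y110.FJ Pool.Agent.Y261.FJ

variable {G T : Type} [Group G] {Λ : SimpleGraph T} {B : T → Subgroup G}

theorem of_eq {s t : T} (h : s = t) (b : B s) (b' : B t) (hb : (b : G) = b') :
    GrP.of Λ (fun t => ↥(B t)) s b = GrP.of Λ (fun t => ↥(B t)) t b' := by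
  subst h
  rw [Subtype.ext hb]

/-- conjugation by `g` as a homomorphism of vertex groups -/
def cj (g : G) {s t : T} (h : ∀ b ∈ B s, g * b * g⁻¹ ∈ B t) : B s →* B t where
  toFun b := ⟨g * b * g⁻¹, h b b.2⟩
  map_one' := by
    ext
    simp
  map_mul' a b := by
    ext
    simp [mul_assoc]

/-- the endomorphism of the graph product -/
noncomputable def sg (τ : T → T) (g : G) (hτ : ∀ s t, Λ.Adj s t → Λ.Adj (τ s) (τ t))
    (hB : ∀ t, ∀ b ∈ B t, g * b * g⁻¹ ∈ B (τ t)) :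
    GrP Λ (fun t => ↥(B t)) →* GrP Λ (fun t => ↥(B t)) :=
  glift (fun t => (GrP.of Λ (fun t => ↥(B t)) (τ t)).comp (cj g (hB t)))
    fun v w h a b => of_comm Λ (fun t => ↥(B t)) (hτ v w h) _ _

theorem sg_of (τ : T → T) (g : G) (hτ : ∀ s t, Λ.Adj s t → Λ.Adj (τ s) (τ t))
    (hB : ∀ t, ∀ b ∈ B t, g * b * g⁻¹ ∈ B (τ t)) (t : T) (b : B t) :
    sg τ g hτ hB (GrP.of Λ (fun t => ↥(B t)) t b) =
      GrP.of Λ (fun t => ↥(B t)) (τ t) ⟨g * b * g⁻¹, hB t b b.2⟩ :=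
  glift_of (Λ := Λ) (A := fun t => ↥(B t))
    (fun t => (GrP.of Λ (fun t => ↥(B t)) (τ t)).comp (cj g (hB t))) _ t b

theorem t_sig : S_SIG := by
  intro G T _ Λ B τ g hτ hB
  have h1 : ∀ t, ∀ b ∈ B t, g * b * g⁻¹ ∈ B (τ t) := by
    intro t b hb
    rw [hB t, Subgroup.mem_map]
    exact ⟨b, hb, rfl⟩
  have h2 : ∀ t, ∀ b ∈ B t, g⁻¹ * b * g⁻¹⁻¹ ∈ B (τ.symm t) := by
    intro t b hb
    have h3 := hB (τ.symm t)
    rw [Equiv.apply_symm_apply] at h3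
    rw [h3, Subgroup.mem_map] at hb
    obtain ⟨c, hc, hcb⟩ := hb
    have h4 : b = g * c * g⁻¹ := hcb.symm
    have h5 : g⁻¹ * b * g⁻¹⁻¹ = c := by
      rw [h4]
      group
    rw [h5]
    exact hc
  have a1 : ∀ s t, Λ.Adj s t → Λ.Adj (τ s) (τ t) := fun s t => (hτ s t).2
  have a2 : ∀ s t, Λ.Adj s t → Λ.Adj (τ.symm s) (τ.symm t) := fun s t h =>
    (hτ _ _).1 (by simpa using h)
  refine ⟨MonoidHom.toMulEquiv (sg τ g a1 h1) (sg τ.symm g⁻¹ a2 h2) ?_ ?_, fun t b b' hb => ?_⟩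
  · apply ghom_ext
    intro t b
    rw [MonoidHom.comp_apply, sg_of, sg_of, MonoidHom.id_apply]
    refine of_eq (Equiv.symm_apply_apply τ t) _ _ ?_
    simp only
    group
  · apply ghom_ext
    intro t b
    rw [MonoidHom.comp_apply, sg_of, sg_of, MonoidHom.id_apply]
    refine of_eq (Equiv.apply_symm_apply τ t) _ _ ?_
    simp only
    group
  · change sg τ g a1 h1 (GrP.of Λ (fun t => ↥(B t)) t b) = _
    rw [sg_of]
    exact of_eq rfl _ _ hb.symm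

end Pool.Agent.Y86.FJ
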